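import Pool.Agent.H79.BN.Targets

/-!
# (EXB) the frontier of the open convex polygon.  helper34
-/

set_option autoImplicit false

namespace Pool.Agent.H34.BN

open MeasureTheory Set Filter Topology Pool.Agent.H93.BL Pool.Agent.H79.BN

theorem cr_cont (e a : ℂ) : Continuous fun x : ℂ => cr e (x - a) := by
  unfold cr
  exact (continuous_const.mul (Complex.continuous_im.comp (continuous_id.sub continuous_const))).sub
    (continuous_const.mul (Complex.continuous_re.comp (continuous_id.sub continuous_const)))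

theorem cr_conv (e a x c : ℂ) (t : ℝ) : cr e (x + (t : ℂ) * (c - x) - a) =
    (1 - t) * cr e (x - a) + t * cr e (c - a) := by
  simp only [cr, Complex.sub_re, Complex.sub_im, Complex.add_re, Complex.add_im, Complex.mul_re,
    Complex.mul_im, Complex.ofReal_re, Complex.ofReal_im]
  ring

theorem exb (_h1 : T_V1) (h2 : T_V2) (h3 : T_V3) (ha : T_EXA) : T_EXB := by
  intro n _ w hn hw
  obtain ⟨hop, -, ⟨c, hc⟩, -⟩ := ha n w hn hw
  have hcl : closure (Omw w) = {x | ∀ j, 0 ≤ cr (ed w j) (x - w j)} := by
    apply Subset.antisymm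
    · refine closure_minimal (fun x hx j => (hx j).le) ?_
      have h : {x | ∀ j, 0 ≤ cr (ed w j) (x - w j)} =
          ⋂ j, {x : ℂ | 0 ≤ cr (ed w j) (x - w j)} := by
        ext x
        simp only [Set.mem_iInter, Set.mem_ofPred_eq]
      rw [h]
      exact isClosed_iInter fun j => isClosed_le continuous_const (cr_cont _ _)
    · intro x hx
      have ht : Tendsto (fun t : ℝ => x + (t : ℂ) * (c - x)) (𝓝[>] 0) (𝓝 x) := by
        have h : Continuous fun t : ℝ => x + (t : ℂ) * (c - x) :=
          continuous_const.add (Complex.continuous_ofReal.mul continuous_const)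
        have h4 := (h.tendsto 0).mono_left (nhdsWithin_le_nhds (s := Ioi (0 : ℝ)))
        have h5 : x + ((0 : ℝ) : ℂ) * (c - x) = x := by simp
        rw [h5] at h4
        exact h4
      refine mem_closure_of_tendsto ht ?_
      have h6 : Ioc (0 : ℝ) 1 ∈ 𝓝[>] (0 : ℝ) := Ioc_mem_nhdsGT one_pos
      filter_upwards [h6] with t ht6 j
      rw [cr_conv]
      have h7 := hx j
      have h8 := hc j
      have h9 : 0 ≤ (1 - t) * cr (ed w j) (x - w j) := mul_nonneg (by linarith [ht6.2]) h7
      have h10 : 0 < t * cr (ed w j) (c - w j) := mul_pos ht6.1 h8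
      linarith
  rw [hop.frontier_eq, hcl]
  ext x
  rw [Set.mem_iUnion]
  constructor
  · rintro ⟨hx, hnx⟩
    have h4 : ∃ j, ¬ 0 < cr (ed w j) (x - w j) := by
      by_contra hcon
      push Not at hcon
      exact hnx hcon
    obtain ⟨j, hj⟩ := h4
    exact ⟨j, h2 n w hn hw j x hx (le_antisymm (not_lt.1 hj) (hx j))⟩
  · rintro ⟨i, hi⟩
    obtain ⟨h4, h5, -⟩ := h3 n w hn hw i i x hi
    refine ⟨h4, fun h6 => ?_⟩
    have h7 := h6 i
    rw [h5] at h7
    exact lt_irrefl _ h7

end Pool.Agent.H34.BN
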