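import Pool.Agent.H79.BN.Targets
import Pool.Agent.H93.BL.Final

/-!
# (W3) one step of a strip.  helper34
-/

set_option autoImplicit false

namespace Pool.Agent.H34.BN

open MeasureTheory Set Filter Topology Pool.Agent.H93.BL Pool.Agent.H79.BN

theorem trapped_next {ι : Type} {P : Polygon ι} {E : Set ι} {z z' : ι × ℝ × ℝ}
    (h : Trapped P E z) (hs : P.Step z z') : Trapped P E z' := by
  obtain ⟨f, hf0, hf⟩ := h
  refine ⟨fun n => f (n + 1), ?_, fun n => ?_⟩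
  · have h1 := (hf 0).1
    rw [hf0] at h1
    exact (Pool.Agent.H93.BL.Final.pB3 ι P z (f (0 + 1)) z').1 h1 hs
  · exact ⟨(hf (n + 1)).1, (hf (n + 1)).2⟩

theorem w3 : T_W3 := by
  intro ι P E c i a b φ hNS hab hc hTa hTb
  obtain ⟨j, hj⟩ := hNS i a b φ hab hc hTa hTb
  obtain ⟨α, g, _, hM⟩ := Pool.Agent.H93.BL.Final.pM3 ι P i j
  have ha : a ∈ Icc a b := ⟨le_rfl, hab.le⟩
  have hb : b ∈ Icc a b := ⟨hab.le, le_rfl⟩
  have cosφ : ∀ {z z' : ι × ℝ × ℝ}, P.Step z z' → 0 < Real.cos z.2.2 ∧ 0 < Real.cos z'.2.2 := by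
    intro z z' h
    exact ⟨Real.cos_pos_of_mem_Ioo ⟨h.1.2.2.1, h.1.2.2.2⟩,
      Real.cos_pos_of_mem_Ioo ⟨h.2.1.2.2.1, h.2.1.2.2.2⟩⟩
  have key : ∀ r ∈ Icc a b, ∃ r', P.Step (i, r, φ) (j, r', α - φ) ∧
      r * Real.cos φ = g (α - φ) - r' * Real.cos (α - φ) := by
    intro r hr
    obtain ⟨⟨j', r', φ'⟩, hs, hj'⟩ := hj r hr
    have hj2 : j' = j := hj'
    rw [hj2] at hs
    obtain ⟨h1, h2⟩ := hM r φ r' φ' hs
    have h3 : φ' = α - φ := by linarith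
    have h4 : α - φ' = φ := by linarith
    have h5 := (cosφ hs).1
    rw [h4, eq_div_iff (ne_of_gt h5)] at h2
    rw [h3] at hs h2
    exact ⟨r', hs, h2⟩
  obtain ⟨a1, hsa, hea⟩ := key a ha
  obtain ⟨b1, hsb, heb⟩ := key b hb
  have hc0 : 0 < Real.cos φ := (cosφ hsa).1
  have hc1 : 0 < Real.cos (α - φ) := (cosφ hsa).2
  have hd : (a1 - b1) * Real.cos (α - φ) = (b - a) * Real.cos φ := by linarith
  have hlt : b1 < a1 := by
    have h1 : 0 < (a1 - b1) * Real.cos (α - φ) := by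
      rw [hd]
      exact mul_pos (by linarith) hc0
    have h2 := pos_of_mul_pos_left h1 hc1.le
    linarith
  refine ⟨j, b1, a1, α - φ, hlt, hd, trapped_next hTb hsb, trapped_next hTa hsa, ?_⟩
  intro r hr
  obtain ⟨r1, hsr, her⟩ := key r hr
  refine ⟨r1, ⟨?_, ?_⟩, hsr⟩
  · have h1 : r * Real.cos φ ≤ b * Real.cos φ := mul_le_mul_of_nonneg_right hr.2 hc0.le
    have h2 : b1 * Real.cos (α - φ) ≤ r1 * Real.cos (α - φ) := by linarith
    exact le_of_mul_le_mul_right h2 hc1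
  · have h1 : a * Real.cos φ ≤ r * Real.cos φ := mul_le_mul_of_nonneg_right hr.1 hc0.le
    have h2 : r1 * Real.cos (α - φ) ≤ a1 * Real.cos (α - φ) := by linarith
    exact le_of_mul_le_mul_right h2 hc1

end Pool.Agent.H34.BN
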